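import Pool.Agent.Y322.IV.Main

/-!
# Ivrii's conjecture for almost every small perturbation of every billiard table

`E d` is Euclidean `d`-space; a function `h : E d → ℝ` of class `C²` defines the table `{h < 0}`.
The perturbed functions are `f + ∑ j, t j * g j`, where the `g j ≥ 0` are small smooth bumps with
supports in a given open set `W` and the parameter `t` is a point of the Hilbert cube `[0,1]^ℕ`.

The theorem: for every open set `W`, every `N` and `ε > 0` there is a sequence of bumps `g j` such
that, for EVERY function `f` of class `C^m`, `2 ≤ m ≤ ∞`, all the perturbed functions are of class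
`C^m`, agree with `f` outside `W`, differ from `f` by at most `ε` in all derivatives of order at most
`N`, and for almost every `t` (product Lebesgue measure of the Hilbert cube, and also all `t` outside
a meagre set, outside a countable union of closed sets each of which meets every line in the
direction of some coordinate in a finite set) the table `{f + ∑ t j g j < 0}` has the properties:

* the set of the phase points whose billiard trajectory meets some point of `W` twice has vanishing
  `(2d-2)`-dimensional measure;
* the set of the periodic points (of all periods) whose trajectory meets `W` has vanishing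
  `(2d-2)`-dimensional measure.

For `W` the whole space the second set is the set of all periodic points.

## Outline of the proof

Consider the trajectories which come back to their first bounce point `q` for the first time at the
bounce number `n`, with `g j (q) > 0` and `g j = 0` at the bounce points in between.

* Disjointness (`S_DISJ`): for two different values of the parameter `t j` (the other ones being the
  same) such trajectories never start on the same oriented line. Indeed the bounces in between are
  at points where `g j` vanishes together with its gradient, so they do not depend on `t j`; by the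
  convexity of `{g j > 0}` the first of them is not affected by the bump either. So `q` is the
  intersection of the first and the last line of the loop, which are the same for the two values,
  and both tables have `q` on their boundary, which is impossible as `g j (q) > 0`.
  The case when the last line is the first one in the opposite direction is different: such a
  trajectory hits the boundary perpendicularly half way (`S_RETR`), which is a null set of
  trajectories.
* The lines which carry such a loop with bounded data form a closed set in the product of the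
  Hilbert cube and the space of lines (`S_CLOSED`), so Fubini's theorem (`S_FUB`), or Baire's
  category theorem (`S_BAIRE`), applies.
* Countably many bumps separate every point of `W` from every finite set.
* The billiard map and its inverse preserve null sets.
-/

set_option autoImplicit false

open Set MeasureTheory Function Filter
open scoped unitInterval ContDiff

namespace Pool.Agent.Results.MP_249f74_an.AlmostEveryPerturbation

/-- Euclidean space. -/
abbrev E (d : ℕ) : Type := EuclideanSpace ℝ (Fin d)

/-- `(p k, u k)`, `k = 0, ..., n`, is a piece of a billiard trajectory in the table `{h < 0}`, with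
bounce points `p k` and outgoing velocities `u k`: all of these points (the first and the last one
included) are boundary points, the velocity `u k` is a unit vector which points into the table, the
particle stays in the table between `p k` and `p (k+1)`, and `u (k+1)` is the reflected velocity. -/
def Traj {d : ℕ} (h : E d → ℝ) (n : ℕ) (p u : ℕ → E d) : Prop :=
  (∀ k ≤ n, h (p k) = 0 ∧ ‖u k‖ = 1 ∧ inner ℝ (u k) (gradient h (p k)) < 0) ∧
  ∀ k < n, (∃ t : ℝ, 0 < t ∧ p (k + 1) = p k + t • u k ∧
      ∀ s ∈ Ioo (0 : ℝ) t, h (p k + s • u k) < 0) ∧
    u (k + 1) = u k - (2 * inner ℝ (u k) (gradient h (p (k + 1))) /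
      ‖gradient h (p (k + 1))‖ ^ 2) • gradient h (p (k + 1))

/-- The phase points whose trajectory meets some boundary point of `W` twice. -/
def TwiceIn {d : ℕ} (W : Set (E d)) (h : E d → ℝ) : Set (E d × E d) :=
  {x | ∃ (n : ℕ) (p u : ℕ → E d), Traj h n p u ∧ p 0 = x.1 ∧ u 0 = x.2 ∧
    ∃ k l : ℕ, k < l ∧ l ≤ n ∧ p k = p l ∧ p k ∈ W}

/-- The periodic phase points (exactly the set of the frozen statement) whose trajectory has a
bounce point in `W`. -/
def PerIn {d : ℕ} (W : Set (E d)) (f : E d → ℝ) : Set (E d × E d) :=
  {q | f q.1 = 0 ∧ ‖q.2‖ = 1 ∧ inner ℝ q.2 (gradient f q.1) < 0 ∧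
    ∃ n : ℕ, 1 ≤ n ∧ ∃ p u : ℕ → E d,
      p 0 = q.1 ∧ u 0 = q.2 ∧ p n = q.1 ∧ u n = q.2 ∧
      (∀ k < n, f (p k) = 0 ∧ ‖u k‖ = 1 ∧ inner ℝ (u k) (gradient f (p k)) < 0 ∧
        (∃ t : ℝ, 0 < t ∧ p (k + 1) = p k + t • u k ∧
          ∀ s ∈ Ioo (0 : ℝ) t, f (p k + s • u k) < 0) ∧
        u (k + 1) = u k - (2 * inner ℝ (u k) (gradient f (p (k + 1))) /
            ‖gradient f (p (k + 1))‖ ^ 2) • gradient f (p (k + 1))) ∧
      ∃ k < n, p k ∈ W}

/-- The perturbed function `f + ∑ j, t j * g j`, where `t` is a point of the Hilbert cube. -/
noncomputable def pert {d : ℕ} (f : E d → ℝ) (g : ℕ → E d → ℝ) (t : ℕ → I) (x : E d) : ℝ :=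
  f x + ∑' j, (t j : ℝ) * g j x

/-- The table `{h < 0}` has the two properties in question. -/
def Good {d : ℕ} (W : Set (E d)) (h : E d → ℝ) : Prop :=
  μH[((2 * d - 2 : ℕ) : ℝ)] (TwiceIn W h) = 0 ∧ μH[((2 * d - 2 : ℕ) : ℝ)] (PerIn W h) = 0

/-- **Almost every small perturbation of every table satisfies Ivrii's conjecture.** In every
dimension `d ≥ 2`, for every open set `W`, every `N` and every `ε > 0`, there are smooth compactly
supported functions `g j ≥ 0` with supports in `W` such that, for every `f` of class `C^m`,
`2 ≤ m ≤ ∞`, the functions `f + ∑ j, t j * g j`, `t` in the Hilbert cube, are of class `C^m`, equal to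
`f` outside `W` and `ε`-close to `f` with all derivatives of order at most `N`, and for almost every
`t` (in measure, in category, and up to closed sets with finite sections in coordinate directions)
almost every billiard trajectory in the table `{f + ∑ j, t j * g j < 0}` never meets the same point of
`W` twice, and almost no periodic trajectory meets `W`. -/
theorem result : ∀ (d : ℕ), 2 ≤ d → ∀ W : Set (E d), IsOpen W → ∀ (N : ℕ) (ε : ℝ), 0 < ε →
    ∃ g : ℕ → E d → ℝ, (∀ j, ContDiff ℝ ∞ (g j)) ∧ (∀ j, HasCompactSupport (g j)) ∧
      (∀ j, tsupport (g j) ⊆ W) ∧ (∀ j x, 0 ≤ g j x) ∧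
      (∀ j k : ℕ, k ≤ N + j → ∀ x, ‖iteratedFDeriv ℝ k (g j) x‖ ≤ ε / 2 ^ (j + 1)) ∧
      ∀ m : WithTop ℕ∞, 2 ≤ m → m ≤ ∞ → ∀ f : E d → ℝ, ContDiff ℝ m f →
        (∀ t : ℕ → I, ContDiff ℝ m (pert f g t) ∧ (∀ x ∉ W, pert f g t x = f x) ∧
          ∀ k ≤ N, ∀ x, ‖iteratedFDeriv ℝ k (fun x => pert f g t x - f x) x‖ ≤ ε) ∧
        (∀ᵐ t ∂(Measure.infinitePi (fun _ : ℕ => (volume : Measure I))), Good W (pert f g t)) ∧
        (∀ᶠ t in residual (ℕ → I), Good W (pert f g t)) ∧
        ∃ K : ℕ → ℕ → Set (ℕ → I), (∀ j i, IsClosed (K j i)) ∧
          (∀ j i t, {r : I | update t j r ∈ K j i}.Finite) ∧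
          ∀ t, (∀ j i, t ∉ K j i) → Good W (pert f g t) := by
  intro d hd W hW N ε hε
  obtain ⟨g, h1, h2, h3, h4, h5, h6⟩ := Pool.Agent.Y322.IV.main_thm (E := E d) hd
    (by rw [finrank_euclideanSpace_fin]) W hW N ε hε
  refine ⟨g, h1, h2, h3, h4, h5, fun m hm2 hm f hf => ?_⟩
  obtain ⟨k1, k2, k3, k4⟩ := h6 m hm2 hm f hf
  exact ⟨k1, k3, k4, k2⟩

end Pool.Agent.Results.MP_249f74_an.AlmostEveryPerturbation
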