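import Pool.Agent.Y294.TB2.Main

/-!
# Ivrii's conjecture in all dimensions for orbits with two arbitrary bounces, the others being at
algebraic boundary points

Definitions (files `Pool/Agent/H721R2/Ivrii/Def.lean`, `Pool/Agent/TH746/AL/Main.lean`,
`Pool/Agent/Y294/TB2/Alg.lean` and `Pool/Agent/Y294/TB2/Main.lean`), for a set `Ω` (the table) in
`ℝ^d`:

* `LocalDef Ω q F`: near `q` the table is `{F < 0}`, `F` is `C³` near `q`, `F q = 0` and the
  gradient of `F` at `q` is not zero;
* `ZeroCurv Ω q`: for some such `F` the second derivative `F''(q)` vanishes on the tangent space,
  i.e. the boundary is regular at `q` and its curvatures at the single point `q` are zero;
* `Step Ω q v q' v'`: the particle leaves `q` with velocity `v`, stays in `Ω` until it meets the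
  boundary transversally at `q' = q + t v`, `t > 0`, where the boundary is regular of class `C³`,
  and `v'` is the velocity reflected there;
* `OrbitMod Ω g n p u`: `(p k, u k)` is a billiard trajectory of unit speed which is carried into
  itself by the isometry `g` after `n ≥ 1` bounces: `p (k+n) = g (p k)`, `u (k+n) = g' (u k)`, where
  `g'` is the linear part of `g`;
* `AlgAt Ω q`: near `q` the boundary (frontier) of `Ω` lies in the zero set of a real polynomial the
  leading form of which (homogeneous part of top degree) is not divisible by `X₁² + ... + X_d²`
  (a noncircular algebraic boundary point);
* `AnyAlg Ω q`: near `q` the boundary of `Ω` lies in the zero set of a nonzero real polynomial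
  (an algebraic boundary point, circular or not, for instance a point of a sphere);
* `PerPair Γ Ω`: the phase points `(q, v)` which start a periodic trajectory modulo some `g ∈ Γ`,
  with any number `n ≥ 1` of bounces in a period, for which there are `a` and `b`,
  `0 ≤ a < n`, `a ≤ b < a + n`, such that all the bounce points `p k` with `a < k < a + n`, `k ≠ b`,
  are noncircular algebraic boundary points, and such that `p b` is an algebraic boundary point or
  all the bounce points `p k` with `a < k < b` are points of zero curvature.

So at most two bounces in a period, `p a` and `p b`, are not at noncircular algebraic points (one if
`b = a`); they are arbitrary points of the boundary (of class `C³`) if they are consecutive, or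
separated by reflections in flat mirrors only (on one side; on the other side there are arbitrary
noncircular algebraic mirrors); and in any case if one of the two is algebraic, for instance
on a sphere or on a torus.

The theorem: for every `d ≥ 2`, if `Γ` is a countable set of isometries of `ℝ^d` preserving the set
`Ω ⊆ ℝ^d`, then `PerPair Γ Ω` has vanishing `(2 d - 2)`-dimensional Hausdorff measure. The
phase space has dimension `2 d - 2`. For `Γ = {id}`: almost every periodic point of any table either
has at least three bounces in a period which are not at noncircular algebraic points, or exactly two,
both at nonalgebraic points and separated on both sides by a bounce at a point of nonzero curvature.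

For one arbitrary bounce this is `OneArbitraryBounce` of the starting files, and in the plane
`TwoArbitraryBounces` has no condition on the bounces in between. The conditions here exclude the
possibility that the end `p b` is conjugate to `p a` along the whole family of trajectories.

## Outline of the proof

Let `x = p a`, `u` the direction there, `y = p b`, `k` a countable field over which the algebraic
pieces of the boundary and the isometry are defined. Suppose that the set is not null.

* Good points (`S_GOOD`, `S_DEP`). At almost every point of a measurable set of trajectories in a chart
  every polynomial relation over a countable field between the coordinates of the vertices, directions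
  and normals can be differentiated. So every vertex has transcendence degree at least `d - 1` over
  `k`, the normals at the algebraic mirrors are gradients of polynomials over `k`, and the
  direction `u` is generic over `K = k(x, normal at x)` (`S2_PT1`, `S2_PT2`, `S2_PT3`).
* Selection (`S2_TWO`, `S2_FLAT`, `S2_SEL`). If all mirrors between `x` and `y` have zero curvature,
  then for fixed `x` the vertex `y` is a local coordinate for the directions at `x`. Hence there are a
  single point `x₀` of the first mirror and a set of positive measure of periodic trajectories each
  of which meets the second mirror at the same point `y` as some periodic trajectory starting at
  `x₀`. As `y` is the intersection of the lines obtained from `(x₀, u)` by following the trajectory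
  forwards and backwards through algebraic mirrors, `y` has transcendence degree at most `d - 1` over
  the countable field `K₁ = k(x₀, normal at x₀)`. So the second mirror is algebraic over `K₁` at `y`
  for almost all these trajectories. It may be circular.
* A closed trajectory with a single circular algebraic mirror, at `y` (`S2_CORE2`). The total length
  `L > 0` is algebraic over `K` by the first variation formula (`S2_LEN`). Let `λ` be a real
  number transcendental over `K(u)`; there is a place of `ℝ`, finite and trivial on `K`, at which
  `λ u` becomes a generic isotropic vector (`S2_PLACE`). The two parts of the trajectory, from `x`
  forwards and backwards up to `y`, meet noncircular mirrors only, which are not tangent at infinity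
  to isotropic lines, and so they remain finite at the place and arrive at `y` along two lines which
  are finite and isotropic at the place (`S2_CHAIN`); moreover the isotropic hyperplane through the
  first of these lines is generic over `k` at the place: it has `d - 1` independent parameters
  (`S2_HG`). The length `L / λ` would be finite at the place if `y` were, which is impossible since
  `λ` vanishes there and `L` does not. So `y` is infinite at the place, and a computation with the two
  lines and `L` shows that the tangent hyperplane of the mirror at `y` becomes at the place this
  isotropic hyperplane. Hence the tangent hyperplane at `y` has `d - 1` parameters with residues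
  independent over `k`, and as the mirror is algebraic over `k`, all functions of `y` algebraic over
  `k` are algebraic over these parameters: those which are not zero do not vanish at the place. But
  the square of the length of the normal vector at `y` (one coordinate of which is made `1`) vanishes
  at the place, where this vector is isotropic, and it is at least `1`: a contradiction.
-/

set_option autoImplicit false

open MeasureTheory

namespace Pool.Agent.Results.MP_249f74_an.ConsecutiveArbitraryBounces

open Pool.Agent.Y294.TB2

/-- For every `d ≥ 2`, every table `Ω ⊆ ℝ^d` and every countable set `Γ` of isometries preserving
`Ω`, the phase points whose trajectory is periodic modulo `Γ`, with any number of bounces in a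
period, all of which, with the exception of at most two, `p a` and `p b`, are at noncircular algebraic
boundary points, `p b` being an algebraic point or all the bounces between `p a` and `p b` being at
points of zero curvature, form a set of measure zero. -/
theorem result (d : ℕ) (hd : 2 ≤ d) (Ω : Set (EuclideanSpace ℝ (Fin d)))
    (Γ : Set (EuclideanSpace ℝ (Fin d) ≃ᵃⁱ[ℝ] EuclideanSpace ℝ (Fin d)))
    (hΓ : Γ.Countable) (hinv : ∀ g ∈ Γ, g ⁻¹' Ω = Ω) :
    μH[((2 * d - 2 : ℕ) : ℝ)] (PerPair Γ Ω) = 0 :=
  perPair_null d hd Ω Γ hΓ hinv

end Pool.Agent.Results.MP_249f74_an.ConsecutiveArbitraryBounces
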