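import Pool.Agent.Y294.TB.Main

/-!
# Ivrii's conjecture in the plane for orbits with at most two arbitrary bounces, all the others
being at algebraic boundary points

Definitions (files `Pool/Agent/H721R2/Ivrii/Def.lean`, `Pool/Agent/TH746/AL/Main.lean` and
`Pool/Agent/Y294/TB/Fin.lean`), for a set `Ω` (the table) in `ℝ^d`:

* `LocalDef Ω q F`: near `q` the table is `{F < 0}`, `F` is `C³` near `q`, `F q = 0` and the
  gradient of `F` at `q` is not zero;
* `Step Ω q v q' v'`: the particle leaves `q` with velocity `v`, stays in `Ω` until it meets the
  boundary transversally at `q' = q + t v`, `t > 0`, where the boundary is regular of class `C³`,
  and `v'` is the velocity reflected there;
* `OrbitMod Ω g n p u`: `(p k, u k)` is a billiard trajectory of unit speed which is carried into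
  itself by the isometry `g` after `n ≥ 1` bounces: `p (k+n) = g (p k)`, `u (k+n) = g' (u k)`, where
  `g'` is the linear part of `g`;
* `AlgAt Ω q`: near `q` the boundary (frontier) of `Ω` lies in the zero set of a real polynomial the
  leading form of which (homogeneous part of top degree) is not divisible by `X₁² + ... + X_d²`
  (a noncircular algebraic boundary point);
* `PerTwo Γ Ω`: the phase points `(q, v)` which start a periodic trajectory modulo some `g ∈ Γ`,
  with any number `n ≥ 1` of bounces `p 0, ..., p (n-1)` in a period, at most two of which are not
  at noncircular algebraic boundary points.

The theorem: if `Γ` is a countable set of isometries preserving the subset `Ω` of the Euclidean
plane, then `PerTwo Γ Ω` has vanishing two-dimensional Hausdorff measure (the phase space is a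
surface in `ℝ² × ℝ²`). For `Γ = {id}` these are the periodic orbits: almost every periodic point of
any table, of any period, has at least three bounces in a period at points which are not noncircular
algebraic boundary points. Two of the mirrors of the trajectory are arbitrary curves of class `C³`,
the number of the others and the order in which they are met are arbitrary.

For one arbitrary mirror (and in all dimensions) this is `OneArbitraryBounce` of the starting files.
There the argument is purely algebraic: the trajectory from the arbitrary mirror back to it is given
by algebraic mirrors. With a second arbitrary mirror in the loop the trajectory is not determined by
algebraic data any more, and the new point is that a positive measure of periodic trajectories would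
force one of the two mirrors to be algebraic.

## Outline of the proof

Suppose that the set is not null. Let `x` and `y` be the two arbitrary bounce points, `u` the
direction at `x`, `k` a countable field over which the algebraic pieces of the boundary and the
isometry are defined.

* Charts (`chart`). Near a given periodic trajectory all the trajectories with `n` bounces are
  parametrised by the starting point `x` (on its mirror) and the initial direction `u`.
* Good points (`good`, `dep`). At almost every point of a measurable set, every polynomial relation
  over a countable field between the coordinates of the vertices, directions and normals can be
  differentiated. So (`pt1`, `pt2`, `pt3`) at such a point the mirror has positive transcendence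
  degree over the field; if it is algebraic, then its normal is the gradient of a polynomial over
  the field; and the direction `u` is transcendental over the field `K = k(x, normal at x)`.
* Intersection (`two`). `y` is the intersection of a line determined by `(x, u)` following the
  trajectory forwards, and of a line determined by `(x, u)` following it backwards, through algebraic
  mirrors only. So `y` is algebraic over `K(u)`.
* If `y` does not move when the direction at `x` is changed (`degen`, conjugate points), then `y` is
  algebraic over `K` (`pt4`), and so is the length of the trajectory from `x` to `y` (`len`). This is
  contradicted by the behaviour of the trajectory at a place of `ℝ` at which a multiple of the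
  generic direction `u` becomes isotropic (`place`, `chain`, `core1`).
* Otherwise (`sel`) there are a single point `x₀` of the first mirror and a set of positive measure
  of periodic trajectories, each of which meets the second mirror at the same point `y` as some
  periodic trajectory starting at `x₀`. The trajectories from `x₀` depend on one parameter, their
  direction, so `y` has transcendence degree at most `1` over the countable field
  `K₁ = k(x₀, normal at x₀)`: for almost all these trajectories the second mirror is algebraic at
  `y`, defined over `K₁`. It may be circular.
* A loop of algebraic mirrors from `x` to `x`, one of which, at `y`, may be circular (`core2`). At the
  place the two parts of the loop, from `x` to `y` forwards and backwards, are finite, and end in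
  isotropic directions (`chain`). The total length `L` is algebraic over `K` (`len`), hence is
  finite and nonzero at the place, and this forces `y` to be infinite at the place, the two isotropic
  lines through it to be parallel and the mirror at `y` to have a point at infinity in their
  direction. The isotropic coordinates at infinity of the mirror, defined over `K₁`, are algebraic
  over `K₁` or infinite, whereas the isotropic lines of the two chains have generic positions over
  `K₁`; the law of reflection at `y` and the value of `L` then are incompatible (`delta`).
-/

set_option autoImplicit false

open MeasureTheory

namespace Pool.Agent.Results.MP_249f74_an.TwoArbitraryBounces

open Pool.Agent.Y294.TB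

/-- For every planar table `Ω` and every countable set `Γ` of isometries preserving `Ω`, the phase
points whose trajectory is periodic modulo `Γ`, with any number of bounces in a period, at most two
of which are not at noncircular algebraic boundary points, form a set of measure zero. -/
theorem result (Ω : Set (EuclideanSpace ℝ (Fin 2)))
    (Γ : Set (EuclideanSpace ℝ (Fin 2) ≃ᵃⁱ[ℝ] EuclideanSpace ℝ (Fin 2)))
    (hΓ : Γ.Countable) (hinv : ∀ g ∈ Γ, g ⁻¹' Ω = Ω) : μH[2] (PerTwo Γ Ω) = 0 :=
  perTwo_thm Ω Γ hΓ hinv

end Pool.Agent.Results.MP_249f74_an.TwoArbitraryBounces
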